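import Pool.Agent.Q72.AL.Stm

/-!
# Project AL (helper72), job DUAL
-/

set_option autoImplicit false

open Complex MeasureTheory Filter Topology Set
open Pool.Agent.Q72.AL

namespace Pool.Agent.Q135.AL

noncomputable section

/-- the bound for the coefficients -/
def Mb (R : ℝ) (n : ℕ) : ℝ := Real.exp (R ^ 2 / 8 + 16) * (1 / (n : ℝ) ^ 2)

lemma Mb_nonneg (R : ℝ) (n : ℕ) : 0 ≤ Mb R n := by unfold Mb; positivity

lemma Mb_summable (R : ℝ) : Summable (Mb R) :=
  (Real.summable_one_div_nat_pow.mpr one_lt_two).mul_left _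

lemma cf_bound (R v : ℝ) (hv : |v| ≤ R) (n : ℕ) : |cf 2 v n| ≤ Mb R n := by
  unfold cf Mb
  rcases Nat.eq_zero_or_pos n with rfl | hn
  · simp
  have hn1 : (1 : ℝ) ≤ n := by exact_mod_cast hn
  rw [abs_mul, abs_mul]
  have h1 : |((ArithmeticFunction.moebius n : ℤ) : ℝ)| ≤ 1 := by
    have := ArithmeticFunction.abs_moebius_le_one (n := n)
    exact_mod_cast this
  have h2 : |(n : ℝ) ^ (-(1 / 2) : ℝ)| ≤ 1 := by
    rw [abs_of_nonneg (by positivity)]
    exact Real.rpow_le_one_of_one_le_of_nonpos hn1 (by norm_num)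
  have h3 : |gg 2 (v - Real.log n)| ≤ Real.exp (R ^ 2 / 8 + 16) * (1 / (n : ℝ) ^ 2) := by
    unfold gg
    have e1 : (1 / (n : ℝ) ^ 2) = Real.exp (-2 * Real.log n) := by
      rw [show -2 * Real.log n = -(Real.log n + Real.log n) by ring, Real.exp_neg, Real.exp_add,
        Real.exp_log (by linarith)]
      rw [one_div, sq]
    rw [e1, ← Real.exp_add, abs_of_nonneg (by positivity)]
    have e2 : (2 * Real.sqrt (Real.pi * 2))⁻¹ ≤ 1 := by
      apply inv_le_one_of_one_le₀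
      have : 1 ≤ Real.sqrt (Real.pi * 2) := by
        rw [Real.one_le_sqrt]; nlinarith [Real.pi_gt_three]
      linarith
    have hv2 : v ^ 2 ≤ R ^ 2 := by
      rw [← sq_abs v]; exact pow_le_pow_left₀ (abs_nonneg v) hv 2
    calc (2 * Real.sqrt (Real.pi * 2))⁻¹ * Real.exp (-((v - Real.log n) ^ 2 / (4 * 2)))
        ≤ 1 * Real.exp (-((v - Real.log n) ^ 2 / (4 * 2))) := by gcongr
      _ ≤ Real.exp (R ^ 2 / 8 + 16 + -2 * Real.log n) := by
        rw [one_mul]
        apply Real.exp_le_exp.mpr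
        nlinarith [sq_nonneg (2 * v - Real.log n), sq_nonneg (Real.log n / 4 - 4)]
  calc |((ArithmeticFunction.moebius n : ℤ) : ℝ)| * |(n : ℝ) ^ (-(1 / 2) : ℝ)| *
      |gg 2 (v - Real.log n)| ≤ 1 * 1 * (Real.exp (R ^ 2 / 8 + 16) * (1 / (n : ℝ) ^ 2)) := by
        gcongr
    _ = _ := by ring

lemma wt_meas : Measurable wt := by
  unfold wt
  exact measurable_const.max (Real.measurable_log.min (measurable_const.sub Real.measurable_log))

lemma cf_meas (z : ℝ) (n : ℕ) : Measurable fun τ : ℝ => cf 2 (Real.log z + Real.log τ) n := by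
  unfold cf gg
  fun_prop

/-- the term of the double sum -/
def FF (z X : ℝ) (p : ℕ × ℕ) (τ : ℝ) : ℂ :=
  ((wt τ * cf 2 (Real.log z + Real.log τ) p.1 * cf 2 (Real.log z + Real.log τ) p.2 : ℝ) : ℂ) *
    cexp (((X * τ * (Real.log p.2 - Real.log p.1) : ℝ) : ℂ) * I)

lemma FF_meas (z X : ℝ) (p : ℕ × ℕ) : Measurable (FF z X p) := by
  unfold FF
  have h1 : Measurable fun τ : ℝ => wt τ * cf 2 (Real.log z + Real.log τ) p.1 *
    cf 2 (Real.log z + Real.log τ) p.2 := (wt_meas.mul (cf_meas z p.1)).mul (cf_meas z p.2)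
  exact (Complex.measurable_ofReal.comp h1).mul (by fun_prop)

lemma abs_arg {z τ : ℝ} (hτ : τ ∈ Icc (1 : ℝ) 2) : |Real.log z + Real.log τ| ≤ |Real.log z| + 1 := by
  have h0 : 0 ≤ Real.log τ := Real.log_nonneg hτ.1
  have h1 : Real.log τ ≤ 1 := by
    have := Real.log_le_log (by linarith [hτ.1]) hτ.2
    linarith [Real.log_two_lt_d9]
  calc |Real.log z + Real.log τ| ≤ |Real.log z| + |Real.log τ| := abs_add_le _ _
    _ ≤ _ := by rw [abs_of_nonneg h0]; linarith

lemma FF_bound (h1 : J_WT) {z X τ : ℝ} (hτ : τ ∈ Icc (1 : ℝ) 2) (p : ℕ × ℕ) :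
    ‖FF z X p τ‖ ≤ Mb (|Real.log z| + 1) p.1 * Mb (|Real.log z| + 1) p.2 := by
  unfold FF
  rw [norm_mul, Complex.norm_exp_ofReal_mul_I, mul_one, Complex.norm_real, Real.norm_eq_abs,
    abs_mul, abs_mul]
  have hw := h1.1 τ hτ
  have e0 : |wt τ| ≤ 1 := by rw [abs_of_nonneg hw.1]; exact hw.2
  have e1 := cf_bound _ _ (abs_arg (z := z) hτ) p.1
  have e2 := cf_bound _ _ (abs_arg (z := z) hτ) p.2
  calc |wt τ| * |cf 2 (Real.log z + Real.log τ) p.1| * |cf 2 (Real.log z + Real.log τ) p.2|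
      ≤ 1 * Mb (|Real.log z| + 1) p.1 * Mb (|Real.log z| + 1) p.2 := by
        have := Mb_nonneg (|Real.log z| + 1) p.1
        gcongr
    _ = _ := by ring

lemma Mb2_summable (R : ℝ) : Summable fun p : ℕ × ℕ => Mb R p.1 * Mb R p.2 :=
  (Mb_summable R).mul_of_nonneg (Mb_summable R) (Mb_nonneg R) (Mb_nonneg R)

/-- the term of the series -/
def aT (v T : ℝ) (n : ℕ) : ℂ := ((cf 2 v n : ℝ) : ℂ) * cexp (-((T * Real.log n : ℝ) : ℂ) * I)

lemma DD_eq (v T : ℝ) : DD 2 v T = ∑' n, aT v T n := rfl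

lemma norm_aT (v T : ℝ) (n : ℕ) : ‖aT v T n‖ = |cf 2 v n| := by
  unfold aT
  rw [norm_mul, show -((T * Real.log n : ℝ) : ℂ) * I = ((-(T * Real.log n) : ℝ) : ℂ) * I by
      push_cast; ring, Complex.norm_exp_ofReal_mul_I, mul_one, Complex.norm_real, Real.norm_eq_abs]

lemma prod_term (z X τ : ℝ) (n m : ℕ) :
    ((wt τ : ℝ) : ℂ) * (aT (Real.log z + Real.log τ) (X * τ) n *
      (starRingEnd ℂ) (aT (Real.log z + Real.log τ) (X * τ) m)) = FF z X (n, m) τ := by
  unfold aT FF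
  have e : (starRingEnd ℂ) (cexp (-((X * τ * Real.log m : ℝ) : ℂ) * I)) =
      cexp (((X * τ * Real.log m : ℝ) : ℂ) * I) := by
    rw [← Complex.exp_conj]
    congr 1
    rw [map_mul, Complex.conj_I, map_neg, Complex.conj_ofReal]
    ring
  rw [map_mul, Complex.conj_ofReal, e]
  have e2 : cexp (((X * τ * (Real.log m - Real.log n) : ℝ) : ℂ) * I) =
      cexp (-((X * τ * Real.log n : ℝ) : ℂ) * I) * cexp (((X * τ * Real.log m : ℝ) : ℂ) * I) := by
    rw [← Complex.exp_add]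
    congr 1
    push_cast
    ring
  simp only
  rw [e2]
  push_cast
  ring

lemma genB (a : ℕ → ℂ) (ha : Summable fun n => ‖a n‖) :
    HasSum (fun n => (starRingEnd ℂ) (a n)) ((starRingEnd ℂ) (∑' n, a n)) := by
  have hA : HasSum a (∑' n, a n) := ha.of_norm.hasSum
  rw [Complex.hasSum_conj, Complex.conj_conj]
  exact hA

lemma genC (a b : ℕ → ℂ) (ha : Summable fun n => ‖a n‖) (hb : Summable fun n => ‖b n‖) (A B : ℂ)
    (hA : HasSum a A) (hB : HasSum b B) : HasSum (fun p : ℕ × ℕ => a p.1 * b p.2) (A * B) :=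
  hA.mul hB (summable_mul_of_summable_norm ha hb)

lemma gen (a : ℕ → ℂ) (ha : Summable fun n => ‖a n‖) (w : ℝ) :
    HasSum (fun p : ℕ × ℕ => (w : ℂ) * (a p.1 * (starRingEnd ℂ) (a p.2)))
      ((w * ‖∑' n, a n‖ ^ 2 : ℝ) : ℂ) := by
  have hAB := genC a (fun n => (starRingEnd ℂ) (a n)) ha (ha.congr fun n => by rw [Complex.norm_conj])
    _ _ ha.of_norm.hasSum (genB a ha)
  have hC := hAB.mul_left (w : ℂ)
  have e1 : ((w * ‖∑' n, a n‖ ^ 2 : ℝ) : ℂ) = (w : ℂ) * ((∑' n, a n) * (starRingEnd ℂ) (∑' n, a n)) := by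
    rw [Complex.mul_conj, Complex.normSq_eq_norm_sq, Complex.ofReal_mul]
  rw [e1]
  exact hC

lemma aT_summable {z τ : ℝ} (T : ℝ) (hτ : τ ∈ Icc (1 : ℝ) 2) :
    Summable (fun n => ‖aT (Real.log z + Real.log τ) T n‖) := by
  refine Summable.of_nonneg_of_le (fun n => norm_nonneg _) (fun n => ?_)
    (Mb_summable (|Real.log z| + 1))
  rw [norm_aT]
  exact cf_bound _ _ (abs_arg hτ) n

/-- pointwise expansion -/
lemma pointwise {z X τ : ℝ} (hτ : τ ∈ Icc (1 : ℝ) 2) :
    HasSum (fun p : ℕ × ℕ => FF z X p τ)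
      ((wt τ * ‖DD 2 (Real.log z + Real.log τ) (X * τ)‖ ^ 2 : ℝ) : ℂ) := by
  have h := gen _ (aT_summable (z := z) (X * τ) hτ) (wt τ)
  rw [← DD_eq] at h
  have e3 : (fun p : ℕ × ℕ => FF z X p τ) = fun p : ℕ × ℕ => ((wt τ : ℝ) : ℂ) *
      (aT (Real.log z + Real.log τ) (X * τ) p.1 *
        (starRingEnd ℂ) (aT (Real.log z + Real.log τ) (X * τ) p.2)) := by
    funext p
    exact (prod_term z X τ p.1 p.2).symm
  rw [e3]
  exact h

/-- the integral as a sum -/
lemma int_sum (h1 : J_WT) (z X : ℝ) :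
    HasSum (fun p : ℕ × ℕ => ∫ τ in (1 : ℝ)..2, FF z X p τ)
      (∫ τ in (1 : ℝ)..2, ((wt τ * ‖DD 2 (Real.log z + Real.log τ) (X * τ)‖ ^ 2 : ℝ) : ℂ)) := by
  have hsub : ∀ t : ℝ, t ∈ Set.uIoc (1 : ℝ) 2 → t ∈ Icc (1 : ℝ) 2 := by
    intro t ht
    rw [Set.uIoc_of_le (by norm_num)] at ht
    exact ⟨ht.1.le, ht.2⟩
  refine intervalIntegral.hasSum_integral_of_dominated_convergence
    (fun p _ => Mb (|Real.log z| + 1) p.1 * Mb (|Real.log z| + 1) p.2) ?_ ?_ ?_ ?_ ?_
  · intro p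
    exact (FF_meas z X p).aestronglyMeasurable
  · intro p
    exact Filter.Eventually.of_forall fun t ht => FF_bound h1 (hsub t ht) p
  · exact Filter.Eventually.of_forall fun t ht => Mb2_summable _
  · exact intervalIntegrable_const
  · exact Filter.Eventually.of_forall fun t ht => pointwise (hsub t ht)

/-- the limit of the term -/
def LL (z : ℝ) (p : ℕ × ℕ) : ℂ :=
  if p.1 = p.2 then ∫ τ in (1 : ℝ)..2, ((wt τ * cf 2 (Real.log z + Real.log τ) p.1 ^ 2 : ℝ) : ℂ) else 0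

lemma norm_int_le (h1 : J_WT) (z X : ℝ) (p : ℕ × ℕ) :
    ‖∫ τ in (1 : ℝ)..2, FF z X p τ‖ ≤ Mb (|Real.log z| + 1) p.1 * Mb (|Real.log z| + 1) p.2 := by
  have := intervalIntegral.norm_integral_le_of_norm_le_const (a := (1 : ℝ)) (b := 2)
    (f := FF z X p) (C := Mb (|Real.log z| + 1) p.1 * Mb (|Real.log z| + 1) p.2) ?_
  · refine this.trans (le_of_eq ?_)
    rw [show |(2 : ℝ) - 1| = 1 by norm_num, mul_one]
  · intro t ht
    rw [Set.uIoc_of_le (by norm_num)] at ht
    exact FF_bound h1 ⟨ht.1.le, ht.2⟩ p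

/-- Riemann-Lebesgue -/
lemma RL (f : ℝ → ℝ) (b : ℝ) (hb : b ≠ 0) :
    Tendsto (fun X : ℝ => ∫ τ in (1 : ℝ)..2, ((f τ : ℝ) : ℂ) * cexp (((X * τ * b : ℝ) : ℂ) * I))
      atTop (𝓝 0) := by
  have h1 := Real.tendsto_integral_exp_smul_cocompact
    (fun τ : ℝ => (Set.Ioc (1 : ℝ) 2).indicator (fun τ => ((f τ : ℝ) : ℂ)) τ)
  have h2 : Tendsto (fun X : ℝ => X * (-(b / (2 * Real.pi)))) atTop (cocompact ℝ) := by
    have h3 : Tendsto (fun X : ℝ => X * (-(b / (2 * Real.pi)))) (cocompact ℝ) (cocompact ℝ) := by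
      have hne : -(b / (2 * Real.pi)) ≠ 0 := neg_ne_zero.mpr (div_ne_zero hb (by positivity))
      exact (Homeomorph.mulRight₀ _ hne).isClosedEmbedding.tendsto_cocompact
    exact h3.mono_left atTop_le_cocompact
  refine (h1.comp h2).congr fun X => ?_
  simp only [Function.comp]
  rw [intervalIntegral.integral_of_le (by norm_num), ← integral_indicator measurableSet_Ioc]
  refine integral_congr_ae (Filter.Eventually.of_forall fun τ => ?_)
  simp only [Set.indicator]
  split_ifs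
  · rw [Circle.smul_def, Real.fourierChar_apply, smul_eq_mul, mul_comm]
    congr 2
    push_cast
    have : (Real.pi : ℂ) ≠ 0 := by exact_mod_cast Real.pi_ne_zero
    field_simp
  · simp

lemma tendsto_term (z : ℝ) (p : ℕ × ℕ) :
    Tendsto (fun X : ℝ => ∫ τ in (1 : ℝ)..2, FF z X p τ) atTop (𝓝 (LL z p)) := by
  obtain ⟨n, m⟩ := p
  unfold LL
  by_cases hnm : n = m
  · subst hnm
    simp only [if_true]
    have : ∀ X : ℝ, (∫ τ in (1 : ℝ)..2, FF z X (n, n) τ) =
        ∫ τ in (1 : ℝ)..2, ((wt τ * cf 2 (Real.log z + Real.log τ) n ^ 2 : ℝ) : ℂ) := by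
      intro X
      refine intervalIntegral.integral_congr fun τ _ => ?_
      simp only [FF, sub_self, mul_zero, Complex.ofReal_zero, zero_mul, Complex.exp_zero, mul_one]
      push_cast
      ring
    simp only [this]
    exact tendsto_const_nhds
  · simp only [hnm, if_false]
    by_cases hn0 : n = 0
    · subst hn0
      have : ∀ X : ℝ, (∫ τ in (1 : ℝ)..2, FF z X (0, m) τ) = 0 := by
        intro X
        have : ∀ τ, FF z X (0, m) τ = 0 := by
          intro τ
          simp [FF, cf]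
        simp [this]
      simp only [this]
      exact tendsto_const_nhds
    by_cases hm0 : m = 0
    · subst hm0
      have : ∀ X : ℝ, (∫ τ in (1 : ℝ)..2, FF z X (n, 0) τ) = 0 := by
        intro X
        have : ∀ τ, FF z X (n, 0) τ = 0 := by
          intro τ
          simp [FF, cf]
        simp [this]
      simp only [this]
      exact tendsto_const_nhds
    have hb : Real.log m - Real.log n ≠ 0 := by
      intro h
      have h1 : Real.log m = Real.log n := by linarith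
      have h2 : (m : ℝ) = n := Real.log_injOn_pos
        (Set.mem_Ioi.mpr (by exact_mod_cast Nat.pos_of_ne_zero hm0))
        (Set.mem_Ioi.mpr (by exact_mod_cast Nat.pos_of_ne_zero hn0)) h1
      exact hnm (by exact_mod_cast h2.symm)
    exact RL (fun τ => wt τ * cf 2 (Real.log z + Real.log τ) n * cf 2 (Real.log z + Real.log τ) m)
      _ hb

/-- the integral of the diagonal sum -/
lemma diag_sum (h1 : J_WT) (z : ℝ) :
    HasSum (fun n : ℕ => ∫ τ in (1 : ℝ)..2, ((wt τ * cf 2 (Real.log z + Real.log τ) n ^ 2 : ℝ) : ℂ))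
      ((BB z : ℝ) : ℂ) := by
  have hsub : ∀ t : ℝ, t ∈ Set.uIoc (1 : ℝ) 2 → t ∈ Icc (1 : ℝ) 2 := by
    intro t ht
    rw [Set.uIoc_of_le (by norm_num)] at ht
    exact ⟨ht.1.le, ht.2⟩
  have hs2 : Summable fun n : ℕ => Mb (|Real.log z| + 1) n * Mb (|Real.log z| + 1) n := by
    have h2 := (Mb2_summable (|Real.log z| + 1)).comp_injective
      (i := fun n : ℕ => (n, n)) (fun a b h => by simpa using h)
    exact h2
  have hcf : ∀ τ ∈ Icc (1 : ℝ) 2, ∀ n, cf 2 (Real.log z + Real.log τ) n ^ 2 ≤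
      Mb (|Real.log z| + 1) n * Mb (|Real.log z| + 1) n := by
    intro τ hτ n
    have := cf_bound _ _ (abs_arg (z := z) hτ) n
    rw [← sq_abs, sq]
    exact mul_le_mul this this (abs_nonneg _) (Mb_nonneg _ _)
  have hB : ((BB z : ℝ) : ℂ) =
      ∫ τ in (1 : ℝ)..2, ((wt τ * AA 2 (Real.log z + Real.log τ) : ℝ) : ℂ) := by
    unfold BB
    rw [intervalIntegral.integral_ofReal]
  rw [hB]
  refine intervalIntegral.hasSum_integral_of_dominated_convergence
    (fun n _ => Mb (|Real.log z| + 1) n * Mb (|Real.log z| + 1) n) ?_ ?_ ?_ ?_ ?_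
  · intro n
    exact (Complex.measurable_ofReal.comp (wt_meas.mul ((cf_meas z n).pow_const 2))).aestronglyMeasurable
  · intro n
    refine Filter.Eventually.of_forall fun t ht => ?_
    have hw := h1.1 t (hsub t ht)
    rw [Complex.norm_real, Real.norm_eq_abs, abs_of_nonneg (mul_nonneg hw.1 (sq_nonneg _))]
    calc wt t * cf 2 (Real.log z + Real.log t) n ^ 2 ≤ 1 * cf 2 (Real.log z + Real.log t) n ^ 2 :=
          mul_le_mul_of_nonneg_right hw.2 (sq_nonneg _)
      _ ≤ _ := by rw [one_mul]; exact hcf t (hsub t ht) n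
  · exact Filter.Eventually.of_forall fun t ht => hs2
  · exact intervalIntegrable_const
  · refine Filter.Eventually.of_forall fun t ht => ?_
    have hS : Summable fun n => cf 2 (Real.log z + Real.log t) n ^ 2 :=
      Summable.of_nonneg_of_le (fun n => sq_nonneg _) (fun n => hcf t (hsub t ht) n) hs2
    have h3 : HasSum (fun n => wt t * cf 2 (Real.log z + Real.log t) n ^ 2)
        (wt t * AA 2 (Real.log z + Real.log t)) := hS.hasSum.mul_left _
    exact (Complex.hasSum_ofReal).mpr h3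

lemma LL_tsum (h1 : J_WT) (z : ℝ) : ∑' p, LL z p = ((BB z : ℝ) : ℂ) := by
  have h2 := diag_sum h1 z
  have h3 : HasSum (LL z) ((BB z : ℝ) : ℂ) := by
    have hinj : Function.Injective (fun n : ℕ => ((n, n) : ℕ × ℕ)) := fun a b h => by
      simpa using h
    refine (hinj.hasSum_iff ?_).mp ?_
    · intro p hp
      unfold LL
      rw [if_neg]
      intro h
      exact hp ⟨p.1, by ext <;> simp [h]⟩
    · have e : (LL z ∘ fun n : ℕ => ((n, n) : ℕ × ℕ)) = fun n : ℕ =>
          ∫ τ in (1 : ℝ)..2, ((wt τ * cf 2 (Real.log z + Real.log τ) n ^ 2 : ℝ) : ℂ) := by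
        funext n
        simp only [Function.comp, LL, if_true]
      rw [e]
      exact h2
  exact h3.tsum_eq

theorem dual (h1 : J_WT) (_h2 : J_DDC) : J_DUAL := by
  intro z hz
  have hlim : Tendsto (fun X : ℝ => ∑' p : ℕ × ℕ, ∫ τ in (1 : ℝ)..2, FF z X p τ) atTop
      (𝓝 (∑' p, LL z p)) :=
    tendsto_tsum_of_dominated_convergence (Mb2_summable (|Real.log z| + 1))
      (tendsto_term z) (Filter.Eventually.of_forall fun X p => norm_int_le h1 z X p)
  rw [LL_tsum h1 z] at hlim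
  have hre := (Complex.continuous_re.tendsto _).comp hlim
  rw [Complex.ofReal_re] at hre
  refine hre.congr' ?_
  filter_upwards [eventually_gt_atTop (0 : ℝ)] with X hX
  simp only [Function.comp]
  rw [(int_sum h1 z X).tsum_eq, intervalIntegral.integral_ofReal, Complex.ofReal_re]
  have e := intervalIntegral.integral_comp_div
    (fun τ => wt τ * ‖DD 2 (Real.log z + Real.log τ) (X * τ)‖ ^ 2) hX.ne' (a := X) (b := 2 * X)
  rw [div_self hX.ne', mul_div_cancel_right₀ _ hX.ne', smul_eq_mul] at e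
  rw [one_div, eq_comm, inv_mul_eq_iff_eq_mul₀ hX.ne', ← e]
  refine intervalIntegral.integral_congr fun T _ => ?_
  rw [mul_div_cancel₀ _ hX.ne']

end

end Pool.Agent.Q135.AL
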